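import Mathlib

/-!
# Common convex partitions of two trees: the sequence need not be log-concave
-/

namespace Pool.Agent.Results.MP_8b9f13_co.NotLogConcave

/-- A semilabelled binary tree of size `n`: a finite tree all of whose vertices have degree `1`
or `3`, together with a bijective labelling of the degree-one vertices by `Fin n`. -/
structure BinTree (n : ℕ) where
  V : Type
  fin : Finite V
  G : SimpleGraph V
  isTree : G.IsTree
  deg : ∀ v, (G.neighborSet v).ncard = 1 ∨ (G.neighborSet v).ncard = 3
  leaf : Fin n → V
  leaf_inj : Function.Injective leaf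
  leaf_iff : ∀ v, (G.neighborSet v).ncard = 1 ↔ v ∈ Set.range leaf

/-- The partition of the labels given by the equivalence relation `r` is a convex character on
`T`: for some set `D` of deleted edges, two labels are equivalent iff their leaves lie in the same
component of `T` minus `D`. -/
def Convex {n : ℕ} (T : BinTree n) (r : Setoid (Fin n)) : Prop :=
  ∃ D : Set (Sym2 T.V), ∀ i j, r i j ↔ (T.G.deleteEdges D).Reachable (T.leaf i) (T.leaf j)

/-- The partition has at least two classes of size at least two. -/
def Nontriv {n : ℕ} (r : Setoid (Fin n)) : Prop :=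
  ∃ a b c d, a ≠ b ∧ c ≠ d ∧ r a b ∧ r c d ∧ ¬ r a c

/-- The number of common non-trivial partitions of `T` and `F` with exactly `k` classes. -/
noncomputable def a {n : ℕ} (T F : BinTree n) (k : ℕ) : ℕ :=
  Set.ncard {r : Setoid (Fin n) |
    Convex T r ∧ Convex F r ∧ Nat.card (Quotient r) = k ∧ Nontriv r}

/-! ### Trees given by a parent function on `Fin 22`, with root `21` -/

/-- the graph of a parent function -/
def gr (p : Fin 22 → Fin 22) : SimpleGraph (Fin 22) where
  Adj u v := u ≠ v ∧ (p u = v ∨ p v = u)
  symm := ⟨fun _ _ h => ⟨h.1.symm, h.2.symm⟩⟩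
  loopless := ⟨fun _ h => h.1 rfl⟩

instance (p : Fin 22 → Fin 22) : DecidableRel (gr p).Adj := fun u v =>
  inferInstanceAs (Decidable (u ≠ v ∧ (p u = v ∨ p v = u)))

/-- the leaf with label `i` is the vertex `i` -/
def lf (i : Fin 12) : Fin 22 := ⟨i.1, by omega⟩

theorem lf_inj : Function.Injective lf := fun i j h => by
  have := congrArg Fin.val h
  exact Fin.ext this

theorem reach_iter (p : Fin 22 → Fin 22) (k : ℕ) (v : Fin 22) :
    (gr p).Reachable v (p^[k] v) := by
  induction k with
  | zero => exact SimpleGraph.Reachable.refl _
  | succ k ih =>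
    rw [Function.iterate_succ_apply']
    refine ih.trans ?_
    by_cases h : p^[k] v = p (p^[k] v)
    · rw [← h]
    · exact SimpleGraph.Adj.reachable ⟨h, Or.inl rfl⟩

theorem ncard_nb (p : Fin 22 → Fin 22) (v : Fin 22) :
    ((gr p).neighborSet v).ncard = (Finset.univ.filter (fun u => (gr p).Adj v u)).card := by
  rw [← Set.ncard_coe_finset]
  congr 1
  ext u
  simp

theorem degree_eq (p : Fin 22 → Fin 22) (v : Fin 22) :
    (gr p).degree v = (Finset.univ.filter (fun u => (gr p).Adj v u)).card := by
  rw [← SimpleGraph.card_neighborFinset_eq_degree]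
  congr 1
  ext u
  simp

theorem card_edges (p : Fin 22 → Fin 22)
    (h2 : ∀ v : Fin 22, (Finset.univ.filter (fun u => (gr p).Adj v u)).card
      = if v.1 < 12 then 1 else 3) :
    Nat.card (gr p).edgeSet + 1 = Nat.card (Fin 22) := by
  have hs : ∑ v : Fin 22, (gr p).degree v = 2 * (gr p).edgeFinset.card :=
    (gr p).sum_degrees_eq_twice_card_edges
  have hs2 : ∑ v : Fin 22, (gr p).degree v = 42 := by
    rw [Finset.sum_congr rfl (fun v _ => (degree_eq p v).trans (h2 v))]
    decide
  have hcard : Nat.card (gr p).edgeSet = (gr p).edgeFinset.card := by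
    rw [Nat.card_eq_fintype_card, SimpleGraph.edgeFinset_card]
  rw [hcard, Nat.card_eq_fintype_card, Fintype.card_fin]
  omega

/-- the tree of a parent function satisfying the (decidable) hypotheses -/
def mkTree (p : Fin 22 → Fin 22) (h1 : ∀ v, p^[6] v = 21)
    (h2 : ∀ v : Fin 22, (Finset.univ.filter (fun u => (gr p).Adj v u)).card
      = if v.1 < 12 then 1 else 3) : BinTree 12 where
  V := Fin 22
  fin := inferInstance
  G := gr p
  isTree := by
    rw [SimpleGraph.isTree_iff_connected_and_card]
    constructor
    · have : Nonempty (Fin 22) := ⟨0⟩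
      refine ⟨fun u v => ?_⟩
      have hu := reach_iter p 6 u
      have hv := reach_iter p 6 v
      rw [h1] at hu hv
      exact hu.trans hv.symm
    · exact card_edges p h2
  deg := fun v => by
    rw [ncard_nb, h2]
    split <;> simp
  leaf := lf
  leaf_inj := lf_inj
  leaf_iff := fun v => by
    rw [ncard_nb, h2]
    constructor
    · intro h
      have hv : v.1 < 12 := by
        by_contra hc
        rw [if_neg hc] at h
        omega
      exact ⟨⟨v.1, hv⟩, rfl⟩
    · rintro ⟨i, rfl⟩
      have : (lf i).1 < 12 := i.2
      rw [if_pos this]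

/-! ### Sufficient condition for convexity -/

/-- climb towards the root while the label stays the same -/
def top (p : Fin 22 → Fin 22) (l : Fin 22 → ℕ) : ℕ → Fin 22 → Fin 22
  | 0, v => v
  | k + 1, v => if l (p v) = l v then top p l k (p v) else v

theorem reach_top (p : Fin 22 → Fin 22) (l : Fin 22 → ℕ) (D : Set (Sym2 (Fin 22)))
    (hD : ∀ u v, l u = l v → s(u, v) ∉ D) (k : ℕ) (v : Fin 22) :
    ((gr p).deleteEdges D).Reachable v (top p l k v) := by
  induction k generalizing v with
  | zero => exact SimpleGraph.Reachable.refl _
  | succ k ih =>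
    unfold top
    split
    · rename_i h
      refine SimpleGraph.Reachable.trans ?_ (ih (p v))
      by_cases hv : v = p v
      · rw [← hv]
      · apply SimpleGraph.Adj.reachable
        rw [SimpleGraph.deleteEdges_adj]
        exact ⟨⟨hv, Or.inl rfl⟩, hD _ _ h.symm⟩
    · exact SimpleGraph.Reachable.refl _

theorem convex_of_top (p : Fin 22 → Fin 22) (h1) (h2) (r : Setoid (Fin 12)) (l : Fin 22 → ℕ)
    (hl : ∀ i j : Fin 12, r i j ↔ l (lf i) = l (lf j))
    (ht : ∀ i j : Fin 12, r i j → top p l 6 (lf i) = top p l 6 (lf j)) :
    Convex (mkTree p h1 h2) r := by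
  refine ⟨{e | ∃ u v, e = s(u, v) ∧ l u ≠ l v}, fun i j => ?_⟩
  have hD : ∀ u v : Fin 22, l u = l v → s(u, v) ∉ {e : Sym2 (Fin 22) | ∃ u v, e = s(u, v) ∧ l u ≠ l v} := by
    rintro u v huv ⟨u', v', he, hne⟩
    rw [Sym2.eq_iff] at he
    rcases he with ⟨rfl, rfl⟩ | ⟨rfl, rfl⟩
    · exact hne huv
    · exact hne huv.symm
  constructor
  · intro h
    have e := ht i j h
    have r1 := reach_top p l _ hD 6 (lf i)
    have r2 := reach_top p l _ hD 6 (lf j)
    rw [← e] at r2
    exact r1.trans r2.symm
  · rintro ⟨w⟩
    rw [hl]
    have key : ∀ (u v : Fin 22), ((gr p).deleteEdges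
        {e : Sym2 (Fin 22) | ∃ u v, e = s(u, v) ∧ l u ≠ l v}).Walk u v → l u = l v := by
      intro u v w
      induction w with
      | nil => rfl
      | cons h _ ih =>
        rw [← ih]
        rw [SimpleGraph.deleteEdges_adj] at h
        by_contra hc
        exact h.2 ⟨_, _, rfl, hc⟩
    exact key _ _ w

/-! ### Necessary condition for convexity -/

/-- the branch at `w` containing `v` (named by the child of `w`, or `100` for the parent side) -/
def side (p : Fin 22 → Fin 22) (w : Fin 22) : ℕ → Fin 22 → ℕ
  | 0, _ => 100
  | k + 1, v => if p v = w then v.1 else side p w k (p v)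

theorem walk_side (p : Fin 22 → Fin 22) (w : Fin 22)
    (hs : ∀ v, v ≠ w → p v ≠ w → side p w 7 v = side p w 7 (p v))
    (H : SimpleGraph (Fin 22)) (hH : H ≤ gr p) (u v : Fin 22) (q : H.Walk u v) :
    w ∈ q.support ∨ side p w 7 u = side p w 7 v := by
  induction q with
  | nil => exact Or.inr rfl
  | @cons u c v h q ih =>
    by_cases hu : u = w
    · left
      simp [hu]
    · by_cases hc : c = w
      · left
        rw [SimpleGraph.Walk.support_cons]
        apply List.mem_cons_of_mem
        rw [← hc]
        exact SimpleGraph.Walk.start_mem_support q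
      · rcases ih with ih | ih
        · left
          rw [SimpleGraph.Walk.support_cons]
          exact List.mem_cons_of_mem _ ih
        · right
          rw [← ih]
          obtain ⟨_, h2⟩ := hH h
          rcases h2 with h2 | h2
          · rw [← h2]
            exact hs u hu (by rw [h2]; exact hc)
          · rw [← h2]
            exact (hs c hc (by rw [h2]; exact hu)).symm

theorem convex_side (p : Fin 22 → Fin 22) (h1) (h2) (r : Setoid (Fin 12))
    (hr : Convex (mkTree p h1 h2) r) (w : Fin 22)
    (hs : ∀ v, v ≠ w → p v ≠ w → side p w 7 v = side p w 7 (p v))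
    (i j i' j' : Fin 12) (hij : r i j) (hij' : r i' j')
    (hsi : side p w 7 (lf i) ≠ side p w 7 (lf j))
    (hsi' : side p w 7 (lf i') ≠ side p w 7 (lf j')) : r i i' := by
  obtain ⟨D, hD⟩ : ∃ D : Set (Sym2 (Fin 22)), ∀ i j, r i j ↔
      ((gr p).deleteEdges D).Reachable (lf i) (lf j) := hr
  have hle : (gr p).deleteEdges D ≤ gr p := SimpleGraph.deleteEdges_le D
  have key : ∀ i j : Fin 12, r i j → side p w 7 (lf i) ≠ side p w 7 (lf j) →
      ((gr p).deleteEdges D).Reachable (lf i) w := by
    intro i j hij hne
    obtain ⟨q⟩ := (hD i j).1 hij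
    rcases walk_side p w hs _ hle _ _ q with h | h
    · exact ⟨q.takeUntil w h⟩
    · exact absurd h hne
  have e1 := key i j hij hsi
  have e2 := key i' j' hij' hsi'
  exact (hD i i').2 (e1.trans e2.symm)

/-! ### The two trees -/

/-- parent function of the first tree -/
def pT : Fin 22 → Fin 22 := ![15, 20, 20, 15, 21, 13, 17, 19, 13, 17, 16, 19, 18, 18, 21, 16, 14, 12, 14, 12, 21, 21]

/-- parent function of the second tree -/
def pF : Fin 22 → Fin 22 := ![19, 15, 14, 16, 18, 14, 15, 21, 16, 19, 21, 18, 17, 21, 20, 12, 12, 13, 13, 20, 17, 21]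

theorem pT1 : ∀ v, pT^[6] v = 21 := by decide +kernel
theorem pF1 : ∀ v, pF^[6] v = 21 := by decide +kernel
theorem pT2 : ∀ v : Fin 22, (Finset.univ.filter (fun u => (gr pT).Adj v u)).card
      = if v.1 < 12 then 1 else 3 := by decide +kernel
theorem pF2 : ∀ v : Fin 22, (Finset.univ.filter (fun u => (gr pF).Adj v u)).card
      = if v.1 < 12 then 1 else 3 := by decide +kernel

/-- the first tree -/
def T : BinTree 12 := mkTree pT pT1 pT2

/-- the second tree -/
def F : BinTree 12 := mkTree pF pF1 pF2

theorem sT : ∀ w v : Fin 22, v ≠ w → pT v ≠ w → side pT w 7 v = side pT w 7 (pT v) := by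
  decide +kernel
theorem sF : ∀ w v : Fin 22, v ≠ w → pF v ≠ w → side pF w 7 v = side pF w 7 (pF v) := by
  decide +kernel

/-- table of the inner vertices separating two leaves, `20` bits per pair of leaves -/
def tbl : ℕ := 498393178830821423303240088122996927339515555333253089521790892360156956194961122254702871443856491359137079684261685527241578371023213926190407406437732586384377588960756813062063218936741356395765480332467716463364937532719542497282243335271247443006455248238028659360714894536260977081828298157661375928361290353599795382568228017448965642653177593469178483747970814585400469647834598076069379096283292946333824610622857891756120483787589286563264502602060274562295115561252418797886800903051385948218750123259268406752774499028913768441655233612689510311275027507330797965506083969827116532156204121587823593726590248806394839430369429890189088777035245331436882636225086208832171616887099220392616054486857770256681086200551609411171978346205198184464344110970697420130169592848516587273189991254828448445753681179090551835076084793413340543486308925833216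

/-- the separating vertices of the leaves `u` and `v` (in both trees) as a bit mask -/
def Pm (u v : ℕ) : ℕ := (tbl >>> (20 * (12 * u + v))) % 1048576

theorem Pm_spec : ∀ u v : Fin 12, ∀ b : Fin 10,
    (Nat.testBit (Pm u.1 v.1) b.1 = true →
      side pT ⟨12 + b.1, by omega⟩ 7 (lf u) ≠ side pT ⟨12 + b.1, by omega⟩ 7 (lf v)) ∧
    (Nat.testBit (Pm u.1 v.1) (10 + b.1) = true →
      side pF ⟨12 + b.1, by omega⟩ 7 (lf u) ≠ side pF ⟨12 + b.1, by omega⟩ 7 (lf v)) := by
  decide +kernel

theorem Pm_pos : ∀ u v : Fin 12, u ≠ v → Pm u.1 v.1 ≠ 0 := by decide +kernel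

theorem Pm_disj (r : Setoid (Fin 12)) (hT : Convex T r) (hF : Convex F r)
    (u x v y : Fin 12) (hux : r u x) (hvy : r v y) (huv : ¬ r u v) :
    Pm u.1 x.1 &&& Pm v.1 y.1 = 0 := by
  apply Nat.eq_of_testBit_eq
  intro b
  rw [Nat.zero_testBit, Nat.testBit_and]
  by_contra hc
  simp only [Bool.not_eq_false, Bool.and_eq_true] at hc
  have hb : b < 20 := by
    by_contra hb
    have hlt : Pm u.1 x.1 < 2 ^ b := by
      have h1 : Pm u.1 x.1 < 1048576 := Nat.mod_lt _ (by norm_num)
      have h2 : 2 ^ 20 ≤ 2 ^ b := Nat.pow_le_pow_right (by norm_num) (by omega)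
      have h3 : (2 : ℕ) ^ 20 = 1048576 := by norm_num
      omega
    rw [Nat.testBit_lt_two_pow hlt] at hc
    exact absurd hc.1 (by simp)
  by_cases hb2 : b < 10
  · have e1 := (Pm_spec u x ⟨b, hb2⟩).1 hc.1
    have e2 := (Pm_spec v y ⟨b, hb2⟩).1 hc.2
    exact huv (convex_side pT pT1 pT2 r hT _ (sT _) u x v y hux hvy e1 e2)
  · obtain ⟨c, rfl⟩ : ∃ c, b = 10 + c := ⟨b - 10, by omega⟩
    have hc10 : c < 10 := by omega
    have e1 := (Pm_spec u x ⟨c, hc10⟩).2 hc.1
    have e2 := (Pm_spec v y ⟨c, hc10⟩).2 hc.2
    exact huv (convex_side pF pF1 pF2 r hF _ (sF _) u x v y hux hvy e1 e2)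

/-! ### Canonical representatives -/

open Classical in
/-- the least element of the class of `x` -/
noncomputable def cm (r : Setoid (Fin 12)) (x : Fin 12) : Fin 12 :=
  (Finset.univ.filter (fun y => r y x)).min' ⟨x, by simp⟩

open Classical in
theorem cm_rel (r : Setoid (Fin 12)) (x : Fin 12) : r (cm r x) x := by
  have h : cm r x ∈ Finset.univ.filter (fun y => r y x) := Finset.min'_mem _ _
  exact (Finset.mem_filter.1 h).2

open Classical in
theorem cm_le (r : Setoid (Fin 12)) (x y : Fin 12) (h : r y x) : cm r x ≤ y := by
  have h2 : y ∈ Finset.univ.filter (fun y => r y x) := Finset.mem_filter.2 ⟨Finset.mem_univ _, h⟩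
  exact Finset.min'_le _ _ h2

theorem cm_iff (r : Setoid (Fin 12)) (x y : Fin 12) : r x y ↔ cm r x = cm r y := by
  constructor
  · intro h
    apply le_antisymm
    · exact cm_le r x _ (r.trans (cm_rel r y) (r.symm h))
    · exact cm_le r y _ (r.trans (cm_rel r x) h)
  · intro h
    have h1 := cm_rel r x
    rw [h] at h1
    exact r.trans (r.symm h1) (cm_rel r y)

theorem cm_idem (r : Setoid (Fin 12)) (x : Fin 12) : cm r (cm r x) = cm r x :=
  (cm_iff r _ _).1 (cm_rel r x)

theorem cm_le_self (r : Setoid (Fin 12)) (x : Fin 12) : cm r x ≤ x := cm_le r x x (r.refl x)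

theorem card_quot (r : Setoid (Fin 12)) (f : Fin 12 → Fin 12) (h1 : ∀ x y, r x y ↔ f x = f y)
    (h2 : ∀ x, f (f x) = f x) :
    Nat.card (Quotient r) = (Finset.univ.filter (fun i : Fin 12 => f i = i)).card := by
  have hb : Function.Bijective (fun i : {i : Fin 12 // f i = i} => (Quotient.mk r i.1)) := by
    constructor
    · rintro ⟨i, hi⟩ ⟨j, hj⟩ hij
      have h := (h1 i j).1 (Quotient.exact hij)
      rw [hi, hj] at h
      exact Subtype.ext h
    · intro q
      induction q using Quotient.inductionOn with
      | h x =>
        refine ⟨⟨f x, h2 x⟩, ?_⟩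
        apply Quotient.sound
        exact (h1 _ _).2 (h2 x)
  rw [← Nat.card_eq_of_bijective _ hb, Nat.card_eq_fintype_card, Fintype.card_subtype]

theorem card_fix (G : ℕ → ℕ) (f : Fin 12 → Fin 12) (h : ∀ i : Fin 12, (f i).1 = G i.1) :
    (Finset.univ.filter (fun i : Fin 12 => f i = i)).card
      = ((Finset.range 12).filter (fun i => G i = i)).card := by
  rw [Finset.card_filter, Finset.card_filter,
    ← Fin.sum_univ_eq_sum_range (fun i => if G i = i then 1 else 0) 12]
  apply Finset.sum_congr rfl
  intro i _
  rw [← h i]
  by_cases hi : f i = i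
  · rw [if_pos hi, if_pos (congrArg Fin.val hi)]
  · rw [if_neg hi, if_neg (fun hc => hi (Fin.ext hc))]

/-! ### Enumeration -/

/-- the record of `y`: its class and the vertices separating it from the class minimum -/
def entry (f : ℕ → ℕ) (y : ℕ) : ℕ × ℕ := (f y, if f y = y then 0 else Pm (f y) y)

/-- the records of `x-1, ..., 0` -/
def lst (f : ℕ → ℕ) : ℕ → List (ℕ × ℕ)
  | 0 => []
  | x + 1 => entry f x :: lst f x

/-- the number of elements below `x` that are not the minimum of their class -/
def joins (f : ℕ → ℕ) : ℕ → ℕ
  | 0 => 0
  | x + 1 => if f x = x then joins f x else joins f x + 1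

theorem mem_lst (f : ℕ → ℕ) (x : ℕ) (q : ℕ × ℕ) : q ∈ lst f x ↔ ∃ y, y < x ∧ q = entry f y := by
  induction x with
  | zero => simp [lst]
  | succ x ih =>
    rw [lst, List.mem_cons, ih]
    constructor
    · rintro (rfl | ⟨y, hy, rfl⟩)
      · exact ⟨x, by omega, rfl⟩
      · exact ⟨y, by omega, rfl⟩
    · rintro ⟨y, hy, rfl⟩
      by_cases h : y = x
      · left; rw [h]
      · right; exact ⟨y, by omega, rfl⟩

theorem joins_mono (f : ℕ → ℕ) (x y : ℕ) (h : x ≤ y) : joins f x ≤ joins f y := by
  induction y with
  | zero => have : x = 0 := by omega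
            rw [this]
  | succ y ih =>
    by_cases hx : x = y + 1
    · rw [hx]
    · refine (ih (by omega)).trans ?_
      rw [joins]
      split <;> omega

theorem joins_card (f : ℕ → ℕ) (x : ℕ) :
    joins f x + ((Finset.range x).filter (fun i => f i = i)).card = x := by
  induction x with
  | zero => simp [joins]
  | succ x ih =>
    rw [joins, Finset.range_add_one, Finset.filter_insert]
    split
    · rw [Finset.card_insert_of_notMem (by simp)]
      omega
    · omega

/-- one step of the enumeration -/
def step (x : ℕ) (s : ℕ × List (ℕ × ℕ)) : List (ℕ × List (ℕ × ℕ)) :=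
  (s.1, (x, 0) :: s.2) ::
  (if s.1 < 4 then (List.range x).filterMap (fun v =>
    if s.2.any (fun q => q.1 == v) && s.2.all (fun q => q.1 == v || (q.2 &&& Pm v x) == 0) then
      some (s.1 + 1, (v, Pm v x) :: s.2) else none) else [])

/-- the enumeration -/
def enum : ℕ → List (ℕ × List (ℕ × ℕ))
  | 0 => [(0, [])]
  | x + 1 => (enum x).flatMap (step x)

theorem mem_enum (f : ℕ → ℕ) (hf1 : ∀ x < 12, f x ≤ x) (hf2 : ∀ x < 12, f (f x) = f x)
    (hd : ∀ x y, x < 12 → y < 12 → f x ≠ f y → Pm (f x) x &&& Pm (f y) y = 0)
    (h4 : joins f 12 ≤ 4) (x : ℕ) (hx : x ≤ 12) : (joins f x, lst f x) ∈ enum x := by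
  induction x with
  | zero => simp [joins, lst, enum]
  | succ x ih =>
    rw [enum, List.mem_flatMap]
    refine ⟨(joins f x, lst f x), ih (by omega), ?_⟩
    rw [step, joins, lst, List.mem_cons]
    by_cases hfx : f x = x
    · left
      rw [if_pos hfx, entry, if_pos hfx, hfx]
    · right
      have hj : joins f x < 4 := by
        have h := joins_mono f (x + 1) 12 hx
        rw [joins, if_neg hfx] at h
        omega
      rw [if_pos hj, if_neg hfx, List.mem_filterMap]
      have hlt : f x < x := lt_of_le_of_ne (hf1 x (by omega)) hfx
      refine ⟨f x, List.mem_range.2 hlt, ?_⟩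
      have hc : ((lst f x).any (fun q => q.1 == f x) &&
          (lst f x).all (fun q => q.1 == f x || (q.2 &&& Pm (f x) x) == 0)) = true := by
        rw [Bool.and_eq_true, List.any_eq_true, List.all_eq_true]
        constructor
        · refine ⟨entry f (f x), (mem_lst f x _).2 ⟨f x, hlt, rfl⟩, ?_⟩
          simp [entry, hf2 x (by omega)]
        · intro q hq
          obtain ⟨y, hy, rfl⟩ := (mem_lst f x q).1 hq
          simp only [entry, Bool.or_eq_true, beq_iff_eq]
          by_cases hyx : f y = f x
          · left; exact hyx
          · right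
            split
            · simp
            · exact hd y x (by omega) (by omega) hyx
      rw [if_pos hc, entry, if_neg hfx]

/-- at least two classes of size at least two -/
def nt (l : List (ℕ × ℕ)) : Bool :=
  l.any fun q => q.2 != 0 && l.any fun q' => q'.2 != 0 && q.1 != q'.1

/-- the enumerated partitions with eight classes -/
def L8 : List (ℕ × List (ℕ × ℕ)) := (enum 12).filter (fun s => s.1 == 4 && nt s.2)

set_option maxRecDepth 100000 in
theorem L8_length : L8.length = 83 := by decide +kernel

/-- class minima as a function on `ℕ` -/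
noncomputable def fn (r : Setoid (Fin 12)) (x : ℕ) : ℕ :=
  if h : x < 12 then (cm r ⟨x, h⟩).1 else x

theorem fn_eq (r : Setoid (Fin 12)) (x : Fin 12) : fn r x.1 = (cm r x).1 := by
  simp [fn]

/-- the set counted by `a T F k` -/
def S (k : ℕ) : Set (Setoid (Fin 12)) :=
  {r | Convex T r ∧ Convex F r ∧ Nat.card (Quotient r) = k ∧ Nontriv r}

theorem lst_inj (f g : ℕ → ℕ) (x : ℕ) (h : lst f x = lst g x) : ∀ y < x, f y = g y := by
  induction x with
  | zero => intro y hy; omega
  | succ x ih =>
    rw [lst, lst, List.cons.injEq] at h
    intro y hy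
    by_cases hyx : y = x
    · rw [hyx]
      exact congrArg Prod.fst h.1
    · exact ih h.2 y (by omega)

theorem mem_L8 (r : Setoid (Fin 12)) (hr : r ∈ S 8) :
    (joins (fn r) 12, lst (fn r) 12) ∈ L8 := by
  obtain ⟨hT, hF, hk, a, b, c, d, hab, hcd, rab, rcd, hac⟩ := hr
  have hcard : joins (fn r) 12 = 4 := by
    have h1 := joins_card (fn r) 12
    rw [← card_fix (fn r) (cm r) (fun i => (fn_eq r i).symm),
      ← card_quot r (cm r) (cm_iff r) (cm_idem r), hk] at h1
    omega
  have hf1 : ∀ x < 12, fn r x ≤ x := by
    intro x hx
    rw [fn_eq r ⟨x, hx⟩]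
    exact cm_le_self r ⟨x, hx⟩
  have hf2 : ∀ x < 12, fn r (fn r x) = fn r x := by
    intro x hx
    rw [fn_eq r ⟨x, hx⟩, fn_eq r (cm r ⟨x, hx⟩), cm_idem]
  have hd : ∀ x y, x < 12 → y < 12 → fn r x ≠ fn r y →
      Pm (fn r x) x &&& Pm (fn r y) y = 0 := by
    intro x y hx hy hxy
    rw [fn_eq r ⟨x, hx⟩, fn_eq r ⟨y, hy⟩] at *
    refine Pm_disj r hT hF (cm r ⟨x, hx⟩) ⟨x, hx⟩ (cm r ⟨y, hy⟩) ⟨y, hy⟩ (cm_rel r _)
      (cm_rel r _) ?_
    rw [cm_iff, cm_idem, cm_idem]
    intro h
    exact hxy (congrArg Fin.val h)
  rw [L8, List.mem_filter]
  refine ⟨mem_enum (fn r) hf1 hf2 hd (by omega) 12 le_rfl, ?_⟩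
  have key : ∀ a b : Fin 12, a ≠ b → r a b →
      ∃ q ∈ lst (fn r) 12, q.2 ≠ 0 ∧ q.1 = (cm r a).1 := by
    intro a b hab rab
    have h := (cm_iff r a b).1 rab
    have hx : ∃ x : Fin 12, cm r x = cm r a ∧ cm r x ≠ x := by
      by_cases h1 : cm r a = a
      · refine ⟨b, h.symm, ?_⟩
        rw [← h, h1]
        exact hab
      · exact ⟨a, rfl, h1⟩
    obtain ⟨x, hx1, hx2⟩ := hx
    refine ⟨entry (fn r) x.1, (mem_lst _ _ _).2 ⟨x.1, x.2, rfl⟩, ?_, ?_⟩
    · simp only [entry]
      rw [fn_eq, if_neg (fun hc => hx2 (Fin.ext hc))]
      exact Pm_pos _ _ hx2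
    · simp only [entry]
      rw [fn_eq, hx1]
  obtain ⟨q, hq, hq2, hq1⟩ := key a b hab rab
  obtain ⟨q', hq', hq2', hq1'⟩ := key c d hcd rcd
  rw [hcard]
  simp only [beq_self_eq_true, Bool.true_and, nt, List.any_eq_true, Bool.and_eq_true,
    bne_iff_ne]
  refine ⟨q, hq, hq2, q', hq', hq2', ?_⟩
  rw [hq1, hq1']
  intro h
  exact hac ((cm_iff r a c).2 (Fin.ext h))

theorem S8_le : (S 8).ncard ≤ 83 := by
  have h := Set.ncard_le_ncard_of_injOn (s := S 8) (t := (L8.toFinset : Set (ℕ × List (ℕ × ℕ))))
    (fun r => (joins (fn r) 12, lst (fn r) 12))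
    (fun r hr => by simpa using mem_L8 r hr)
    (by
      intro r _ r' _ hrr
      have h1 := lst_inj _ _ 12 (congrArg Prod.snd hrr)
      have h2 : ∀ x, cm r x = cm r' x := by
        intro x
        have := h1 x.1 x.2
        rw [fn_eq, fn_eq] at this
        exact Fin.ext this
      apply Setoid.ext
      intro x y
      rw [cm_iff r, cm_iff r', h2, h2])
    (Finset.finite_toSet _)
  rw [Set.ncard_coe_finset] at h
  exact h.trans ((List.toFinset_card_le _).trans (le_of_eq L8_length))

/-! ### Lower bounds -/

/-- the `i`-th hexadecimal digit -/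
def dig (c i : ℕ) : ℕ := (c >>> (4 * i)) % 16

/-- a vertex labelling extending the digits of `c` -/
def labl (c lab : ℕ) (v : Fin 22) : ℕ :=
  if v.1 < 12 then dig c v.1 else (lab >>> (5 * (v.1 - 12))) % 32

/-- the check for one encoded partition with `k` classes -/
def chk (k : ℕ) (e : ℕ × ℕ × ℕ) : Bool :=
  decide (∀ i : Fin 12, dig e.1 i.1 ≤ i.1 ∧ dig e.1 (dig e.1 i.1) = dig e.1 i.1 ∧
    top pT (labl e.1 e.2.1) 6 (lf i) = top pT (labl e.1 e.2.1) 6 (Fin.ofNat 22 (dig e.1 i.1)) ∧
    top pF (labl e.1 e.2.2) 6 (lf i) = top pF (labl e.1 e.2.2) 6 (Fin.ofNat 22 (dig e.1 i.1))) &&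
  decide (((Finset.range 12).filter (fun i => dig e.1 i = i)).card = k) &&
  decide (∃ i j : Fin 12, dig e.1 i.1 ≠ i.1 ∧ dig e.1 j.1 ≠ j.1 ∧ dig e.1 i.1 ≠ dig e.1 j.1) &&
  decide (e.1 = ∑ i : Fin 12, dig e.1 i.1 * 16 ^ i.1)

/-- the partition encoded by `c` -/
def rc (c : ℕ) : Setoid (Fin 12) := Setoid.ker (fun i : Fin 12 => dig c i.1)

theorem rc_iff (c : ℕ) (i j : Fin 12) : rc c i j ↔ dig c i.1 = dig c j.1 := Iff.rfl

theorem chk_mem (k : ℕ) (e : ℕ × ℕ × ℕ) (h : chk k e = true) : rc e.1 ∈ S k := by
  simp only [chk, Bool.and_eq_true, decide_eq_true_eq] at h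
  obtain ⟨⟨⟨h1, h2⟩, h3⟩, -⟩ := h
  have hlt : ∀ i : Fin 12, dig e.1 i.1 < 12 := fun i => lt_of_le_of_lt (h1 i).1 i.2
  have hlab : ∀ lab, ∀ i : Fin 12, labl e.1 lab (lf i) = dig e.1 i.1 := by
    intro lab i
    have : (lf i).1 < 12 := i.2
    simp only [labl, if_pos this]
    rfl
  refine ⟨?_, ?_, ?_, ?_⟩
  · refine convex_of_top pT pT1 pT2 (rc e.1) (labl e.1 e.2.1) ?_ ?_
    · intro i j
      rw [rc_iff, hlab, hlab]
    · intro i j hij
      rw [(h1 i).2.2.1, (h1 j).2.2.1, (rc_iff _ _ _).1 hij]
  · refine convex_of_top pF pF1 pF2 (rc e.1) (labl e.1 e.2.2) ?_ ?_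
    · intro i j
      rw [rc_iff, hlab, hlab]
    · intro i j hij
      rw [(h1 i).2.2.2, (h1 j).2.2.2, (rc_iff _ _ _).1 hij]
  · rw [card_quot (rc e.1) (fun i => ⟨dig e.1 i.1, hlt i⟩) ?_ ?_]
    · rw [card_fix (dig e.1) _ (fun i => rfl)]
      exact h2
    · intro x y
      rw [rc_iff]
      simp
    · intro x
      exact Fin.ext (h1 x).2.1
  · obtain ⟨i, j, hi, hj, hij⟩ := h3
    refine ⟨i, ⟨dig e.1 i.1, hlt i⟩, j, ⟨dig e.1 j.1, hlt j⟩, ?_, ?_, ?_, ?_, ?_⟩
    · intro hc
      exact hi (congrArg Fin.val hc).symm
    · intro hc
      exact hj (congrArg Fin.val hc).symm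
    · rw [rc_iff]
      exact ((h1 i).2.1).symm
    · rw [rc_iff]
      exact ((h1 j).2.1).symm
    · rw [rc_iff]
      exact hij

theorem chk_inj (k : ℕ) (e e' : ℕ × ℕ × ℕ) (h : chk k e = true) (h' : chk k e' = true)
    (hr : rc e.1 = rc e'.1) : e.1 = e'.1 := by
  simp only [chk, Bool.and_eq_true, decide_eq_true_eq] at h h'
  obtain ⟨⟨⟨h1, -⟩, -⟩, h4⟩ := h
  obtain ⟨⟨⟨h1', -⟩, -⟩, h4'⟩ := h'
  have hlt : ∀ i : Fin 12, dig e.1 i.1 < 12 := fun i => lt_of_le_of_lt (h1 i).1 i.2
  have hlt' : ∀ i : Fin 12, dig e'.1 i.1 < 12 := fun i => lt_of_le_of_lt (h1' i).1 i.2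
  have hd : ∀ i : Fin 12, dig e.1 i.1 = dig e'.1 i.1 := by
    intro i
    -- `dig e i` is in the class of `i`, so it is at least the minimum `dig e' i`, and conversely
    have a1 : rc e'.1 i ⟨dig e.1 i.1, hlt i⟩ := by
      rw [← hr, rc_iff]
      exact ((h1 i).2.1).symm
    have a2 : rc e.1 i ⟨dig e'.1 i.1, hlt' i⟩ := by
      rw [hr, rc_iff]
      exact ((h1' i).2.1).symm
    rw [rc_iff] at a1 a2
    have b1 := (h1' ⟨dig e.1 i.1, hlt i⟩).1
    have b2 := (h1 ⟨dig e'.1 i.1, hlt' i⟩).1
    simp only at a1 a2 b1 b2
    omega
  rw [h4, h4']
  exact Finset.sum_congr rfl (fun i _ => by rw [hd i])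

instance : Finite (Setoid (Fin 12)) :=
  Finite.of_injective (fun (r : Setoid (Fin 12)) (x y : Fin 12) => r x y) (by
    intro r r' h
    apply Setoid.ext
    intro x y
    exact iff_of_eq (congrFun (congrFun h x) y))

theorem lower (k : ℕ) (L : List (ℕ × ℕ × ℕ)) (h1 : L.all (chk k) = true)
    (h2 : (L.map Prod.fst).Nodup) : L.length ≤ (S k).ncard := by
  rw [List.all_eq_true] at h1
  have h := Set.ncard_le_ncard_of_injOn (s := ((L.map Prod.fst).toFinset : Set ℕ)) (t := S k)
    rc
    (fun c hc => by
      simp only [List.coe_toFinset, List.mem_map, Set.mem_ofPred_eq] at hc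
      obtain ⟨e, he, rfl⟩ := hc
      exact chk_mem k e (h1 e he))
    (by
      intro c hc c' hc' hr
      simp only [List.coe_toFinset, List.mem_map, Set.mem_ofPred_eq] at hc hc'
      obtain ⟨e, he, rfl⟩ := hc
      obtain ⟨e', he', rfl⟩ := hc'
      exact chk_inj k e e' (h1 e he) (h1 e' he') hr)
    (Set.toFinite _)
  rw [Set.ncard_coe_finset, List.toFinset_card_of_nodup h2, List.length_map] at h
  exact h

/-- `56` encoded common partitions with seven classes -/
def L7 : List (ℕ × ℕ × ℕ) :=
  [(134795233591296, 241222811664, 246298120814816),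
   (134795138170880, 240518169120, 246298120814816),
   (134760879095808, 241222811664, 246298120814816),
   (134176763543552, 240518169120, 246298120814816),
   (134795132940288, 240518168576, 246298141786336),
   (134760873865216, 241222811664, 246298120814816),
   (134176758312960, 240518168576, 246298141786336),
   (134760778444800, 240518168576, 246298120814816),
   (134176662892544, 240518169120, 246298141786336),
   (134142403817472, 240518168576, 246298120814816),
   (134795132928512, 240518168576, 246298120814816),
   (134760873853440, 241222811664, 246298120814816),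
   (134176758301184, 240518168576, 246298120814816),
   (134760778433024, 240518168576, 246298120833248),
   (134176662880768, 240518169120, 246298120833248),
   (134142403805696, 240518168576, 246298120833248),
   (134760773202432, 240518168576, 246298120814816),
   (134176657650176, 240518168576, 246298141786336),
   (134142398575104, 240518168576, 246298120814816),
   (134142303154688, 240518168576, 246298120833248),
   (134795132928016, 240518168576, 246298120814816),
   (134760873852944, 241222811664, 246298121437408),
   (134176758300688, 240518168576, 246298121437408),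
   (134760778432528, 240518168576, 246298120814816),
   (134176662880272, 240518169120, 246298120814816),
   (134142403805200, 240518168576, 246298121437408),
   (134760773201936, 240518168576, 246298120814816),
   (134176657649680, 240518168576, 246298141786336),
   (134142398574608, 240518168576, 246298121437408),
   (134142303154192, 240518168576, 246298120814816),
   (134795150758160, 36525510263841, 248187941061857),
   (134765169873168, 36526181352496, 248187941061857),
   (134245478830352, 36525510263841, 247432026817761),
   (134765090181392, 36525510263841, 248187941061857),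
   (134245399138576, 36525510264353, 247432026817761),
   (134215418253584, 36525510263841, 247432026817761),
   (134765085995280, 36525530776609, 248187941061857),
   (134245394952464, 36525530776609, 247432046740705),
   (134215414067472, 36525530776609, 247432026817761),
   (134215334375696, 36525530776609, 247432026817761),
   (134760773190160, 906238099456000, 246298120814816),
   (134176657637904, 906238099456000, 246298120814816),
   (134142398562832, 906238099456000, 246298121437408),
   (134142303142416, 906238099456000, 246298120833248),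
   (134765085987344, 36525510263841, 248187941061857),
   (134245394944528, 36525510263841, 247432026817761),
   (134215414059536, 36525510263841, 247432026817761),
   (134215334367760, 36525510263841, 247432026835169),
   (134769398784528, 72810502359106, 249287487326434),
   (134314132251152, 72810502359106, 248565932820706),
   (134288429556240, 72810502359106, 248565933377762),
   (134288365593104, 72810502359106, 248565932820706),
   (134142297911824, 906238099456000, 246298120814816),
   (134215330181648, 36525530776609, 247432026817761),
   (134288362451472, 72810521790530, 248565932820706),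
   (134361394721296, 906241424591971, 249699838823651)]

/-- `126` encoded common partitions with nine classes -/
def L9 : List (ℕ × ℕ × ℕ) :=
  [(134795238846464, 264845132336, 246298141786336),
   (134795238834688, 264845132336, 246298120833248),
   (134795233604096, 241222811664, 246298141786336),
   (134795138183680, 240518169120, 246298141804768),
   (134760879108608, 241222811664, 246298120833248),
   (134176763556352, 240518169120, 246298141804768),
   (134795238834192, 264845132336, 246298121437408),
   (205155392827408, 796917760198, 879609308708870),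
   (205163709345808, 206359756806, 211130077348038),
   (117203047559184, 206359756806, 879615967166662),
   (134795233603600, 241222811664, 246298847052016),
   (134795138183184, 240518169120, 246298141786336),
   (205155124654096, 212802207942, 211130062667974),
   (117202784366608, 229982077478, 211112897478854),
   (134760879108112, 241222811664, 246298121437408),
   (194160276811792, 796917760198, 23628808198),
   (117194462867472, 212802207942, 879615952486598),
   (134786648911888, 247161946310, 246298831945958),
   (134790943879184, 248739004647, 246298363658471),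
   (134176763555856, 240518169120, 246298847052016),
   (134795238838544, 36548729931312, 248187941061857),
   (205142507991312, 37078086814832, 881500198306849),
   (204545507537168, 37074157699616, 880709942150177),
   (201865447944464, 36532630691367, 248181518533665),
   (134795234652432, 36526201865264, 248187960984801),
   (134795154960656, 36525530777121, 248187960984801),
   (198566107951376, 141979443368484, 142631623492737),
   (82017875407120, 141979460145700, 142631623492737),
   (134765174075664, 36526201865264, 248187941061857),
   (134773764010256, 880953261132912, 248187943159009),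
   (134176763556112, 880949332017696, 247397687002337),
   (134245483032848, 36525530777121, 247432046740705),
   (75421610946832, 141979443368484, 142631623492737),
   (131496703963408, 880957560823335, 248187960984801),
   (134795233591824, 906238804099088, 246298121437408),
   (194168863588880, 73360893544528, 23622944768),
   (134795235688976, 72811158702160, 246298121439456),
   (134795138171408, 906238099456544, 246298120833248),
   (194168782848528, 37075264996897, 23622371328),
   (134795154948624, 36525530154529, 246298120866016),
   (198566107939344, 167268210184740, 140741783963776),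
   (82017875395088, 167268226961956, 140741783963776),
   (134760879096336, 906238804099088, 246298121455840),
   (134176763544080, 906238099456544, 246298121455840),
   (71023564423696, 167268205990436, 4295608320),
   (75421610934800, 167268210184740, 140741783963776),
   (131496703951376, 906246327639591, 246298121455840),
   (204889104912912, 37079695262885, 885279767434273),
   (134795234644496, 36526181352496, 248187941061857),
   (134795154952720, 36525510264353, 273477379606753),
   (204888568238608, 36461219972261, 181615008453793),
   (99610329879056, 36461756843173, 182215230133409),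
   (204996479291920, 36525711590439, 254251562485985),
   (134765174067728, 36526181352496, 273477379606753),
   (169949546156560, 36594498176041, 889824111282465),
   (134245483024912, 36525510264353, 247432026835169),
   (194993500459536, 37079695262885, 40877385880609),
   (99335988843024, 36461219972261, 885284196619425),
   (134520360931856, 36529939448997, 251968183375073),
   (134657799885328, 36548260169255, 254235456358625),
   (134795235697168, 72811139893328, 249287487883490),
   (134795171734032, 72810502359586, 249287487326434),
   (134769469039120, 72811139893328, 249287487883490),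
   (134314202505744, 72810502359586, 248565933377762),
   (194160276550160, 27185196826822, 6506502),
   (204545502294544, 37074157699072, 879610430521377),
   (194993500271120, 37079695852709, 40854857225249),
   (205142457725456, 73361366551651, 882600817297475),
   (196359299936784, 73364687915206, 73360262498374),
   (197192523657744, 132737209044133, 111225798759523),
   (134795132940816, 906238099456000, 246298141786336),
   (117202779124240, 906203941044230, 211112897478854),
   (134760873865744, 906238804099088, 246298121437408),
   (134176758313488, 906238099456000, 246298847052016),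
   (134795150766608, 36525530776609, 248187960984801),
   (134765169881616, 36526201865264, 248187941061857),
   (134245478838800, 36525530776609, 247432046740705),
   (134795168592400, 72810521790530, 249287506200802),
   (204957553013264, 72776296269894, 217933305546950),
   (117202781221392, 72776296269894, 238291450529990),
   (134769465897488, 72811159324752, 249287487883490),
   (196986362147344, 73360259254338, 107844585752675),
   (134314199364112, 72810521790530, 248566589786352),
   (116996891226640, 72776296269894, 886419195365574),
   (134589077271056, 72810656008272, 253101571508454),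
   (134657796747792, 72810689562695, 254235476855024),
   (134795186418192, 906241424591971, 250387033591011),
   (134773761913360, 906242028571760, 250387034115299),
   (134382919889424, 906241424591971, 249699839347939),
   (134760778445328, 906238099456000, 246298120833248),
   (134176662893072, 906238099456544, 246298141804768),
   (194138718089744, 37075264996385, 23623419905),
   (134765090189840, 36525530776609, 273477379606753),
   (134782270059024, 36525530776737, 252586125989093),
   (134245399147024, 36525530777121, 247432046758113),
   (134769401934352, 72810521790530, 249287487326434),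
   (134314135400976, 72810521791010, 248565951695074),
   (134773713678864, 906241424591971, 273477381769443),
   (134382871654928, 906241424592419, 249699838839011),
   (198554011578896, 167921582706853, 147029788628101),
   (134782337167888, 906243657549989, 252586126120165),
   (198292018573840, 167921582706853, 146411329066117),
   (134520344162832, 906243657549989, 251967666558181),
   (198553223049744, 167268210806948, 147029789086853),
   (82004990505488, 167268227584164, 147029789086853),
   (198359949521424, 167267707490852, 147545234032774),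
   (81811716977168, 167267724268068, 147545234032774),
   (204936081322512, 906207165516902, 217933287737542),
   (117181309530640, 906207165516902, 238291432720582),
   (134142403818000, 906238099456000, 246298121455840),
   (134215418262032, 36525530776609, 247432026835169),
   (134627735122448, 36525732103207, 254235456358625),
   (134288432706064, 72810521790530, 248565933377762),
   (134361447150096, 906241424591971, 249699839363299),
   (116975419535888, 906207165516902, 886419177556166),
   (134567605580304, 906241525255280, 253101553699046),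
   (134636325057040, 906241558809703, 254235459045616),
   (134163878654480, 906238099456160, 251795852596453),
   (198279150449168, 167921582706853, 146411313796229),
   (134507476038160, 906243657549989, 251967651288293),
   (75408726045200, 167268210806948, 147029789086853),
   (131483819061776, 906246328261799, 252586126578917),
   (198352164893200, 167922690003142, 147545219352710),
   (134580490482192, 906244764846278, 253101556844774),
   (75215452516880, 167267707490852, 147545234032774),
   (131290545533456, 906245824945703, 253101571524838)]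

set_option maxRecDepth 100000 in
theorem L7_chk : L7.all (chk 7) = true := by decide +kernel
set_option maxRecDepth 100000 in
theorem L7_nodup : (L7.map Prod.fst).Nodup := by decide +kernel
theorem L7_length : L7.length = 56 := by decide +kernel
set_option maxRecDepth 100000 in
theorem L9_chk : L9.all (chk 9) = true := by decide +kernel
set_option maxRecDepth 100000 in
theorem L9_nodup : (L9.map Prod.fst).Nodup := by decide +kernel
theorem L9_length : L9.length = 126 := by decide +kernel

/-- **Q2 is false.** There are two semilabelled binary trees of size `12` for which the numbers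
`a_k` of common non-trivial partitions with `k` classes satisfy `a_8 ^ 2 < a_7 * a_9`; so the
sequence is not log-concave. -/
theorem result : ∃ (n : ℕ) (T F : BinTree n) (k : ℕ), 1 < k ∧ k < n ∧
    a T F k ^ 2 < a T F (k - 1) * a T F (k + 1) := by
  refine ⟨12, T, F, 8, by norm_num, by norm_num, ?_⟩
  have h7 : 56 ≤ a T F 7 := by
    have h := lower 7 L7 L7_chk L7_nodup
    rw [L7_length] at h
    exact h
  have h9 : 126 ≤ a T F 9 := by
    have h := lower 9 L9 L9_chk L9_nodup
    rw [L9_length] at h
    exact h
  have h8 : a T F 8 ≤ 83 := S8_le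
  calc a T F 8 ^ 2 ≤ 83 ^ 2 := Nat.pow_le_pow_left h8 2
    _ < 56 * 126 := by norm_num
    _ ≤ a T F (8 - 1) * a T F (8 + 1) := Nat.mul_le_mul h7 h9

end Pool.Agent.Results.MP_8b9f13_co.NotLogConcave
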